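import Pool.Agent.Q123.AK.Ineq

/-!
# Differences and weighted sums over down-sets
-/

set_option autoImplicit false
open Finset

namespace Q123.AK

/-- The set of the differences `a - b`, `(a, b) ∈ G`. -/
def Dif {d : ℕ} (G : Finset ((Fin d → ℕ) × (Fin d → ℕ))) : Finset (Fin d → ℤ) :=
  G.image fun p => fun i => (p.1 i : ℤ) - p.2 i

/-- The set of the weighted sums `a + r b`, `(a, b) ∈ G`. -/
def Sm (r : ℕ) {d : ℕ} (G : Finset ((Fin d → ℕ) × (Fin d → ℕ))) : Finset (Fin d → ℕ) :=
  G.image fun p => fun i => p.1 i + r * p.2 i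

/-- The pairs of `G` with first coordinates `s` and `t`. -/
def sec {d : ℕ} (G : Finset ((Fin (d + 1) → ℕ) × (Fin (d + 1) → ℕ))) (s t : ℕ) :
    Finset ((Fin d → ℕ) × (Fin d → ℕ)) :=
  (G.filter fun p => p.1 0 = s ∧ p.2 0 = t).image fun p => (Fin.tail p.1, Fin.tail p.2)

variable {d : ℕ} {G : Finset ((Fin (d + 1) → ℕ) × (Fin (d + 1) → ℕ))}

theorem mem_sec {s t : ℕ} {a b : Fin d → ℕ} :
    (a, b) ∈ sec G s t ↔ ((Fin.cons s a : Fin (d + 1) → ℕ), (Fin.cons t b : Fin (d + 1) → ℕ)) ∈ G := by
  unfold sec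
  rw [mem_image]
  constructor
  · rintro ⟨p, hp, h⟩
    rw [mem_filter] at hp
    obtain ⟨hp, h1, h2⟩ := hp
    rw [Prod.mk.injEq] at h
    rw [← h.1, ← h.2, ← h1, ← h2, Fin.cons_self_tail, Fin.cons_self_tail]
    exact hp
  · intro h
    refine ⟨_, mem_filter.2 ⟨h, by simp, by simp⟩, ?_⟩
    simp

theorem sec_lower (hG : IsLowerSet (G : Set ((Fin (d + 1) → ℕ) × (Fin (d + 1) → ℕ)))) (s t : ℕ) :
    IsLowerSet (sec G s t : Set ((Fin d → ℕ) × (Fin d → ℕ))) := by
  rintro ⟨a, b⟩ ⟨a', b'⟩ hle h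
  rw [mem_coe, mem_sec] at h ⊢
  apply hG _ h
  rw [Prod.mk_le_mk] at hle ⊢
  exact ⟨Fin.cons_le_cons.2 ⟨le_refl _, hle.1⟩, Fin.cons_le_cons.2 ⟨le_refl _, hle.2⟩⟩

theorem sec_anti (hG : IsLowerSet (G : Set ((Fin (d + 1) → ℕ) × (Fin (d + 1) → ℕ))))
    {s s' t t' : ℕ} (hs : s ≤ s') (ht : t ≤ t') : sec G s' t' ⊆ sec G s t := by
  rintro ⟨a, b⟩ h
  rw [mem_sec] at h ⊢
  apply hG _ h
  rw [Prod.mk_le_mk]
  exact ⟨Fin.cons_le_cons.2 ⟨hs, le_refl _⟩, Fin.cons_le_cons.2 ⟨ht, le_refl _⟩⟩

theorem Dif_card_le (hG : IsLowerSet (G : Set ((Fin (d + 1) → ℕ) × (Fin (d + 1) → ℕ))))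
    {L M : ℕ} (hL : ∀ p ∈ G, p.1 0 ≤ L) (hM : ∀ p ∈ G, p.2 0 ≤ M) :
    (Dif G).card ≤ ∑ s ∈ range (L + 1), (Dif (sec G s 0)).card +
      ∑ t ∈ range M, (Dif (sec G 0 (t + 1))).card := by
  have hsub : Dif G ⊆
      ((range (L + 1)).biUnion fun s => (Dif (sec G s 0)).image
        fun v => (Fin.cons (s : ℤ) v : Fin (d + 1) → ℤ)) ∪
      ((range M).biUnion fun t => (Dif (sec G 0 (t + 1))).image
        fun v => (Fin.cons (-((t + 1 : ℕ) : ℤ)) v : Fin (d + 1) → ℤ)) := by
    intro v hv
    unfold Dif at hv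
    rw [mem_image] at hv
    obtain ⟨⟨a, b⟩, hp, rfl⟩ := hv
    have ha := hL _ hp
    have hb := hM _ hp
    simp only at ha hb
    have key : (Fin.tail a, Fin.tail b) ∈ sec G (a 0) (b 0) := by
      rw [mem_sec, Fin.cons_self_tail, Fin.cons_self_tail]
      exact hp
    rw [mem_union, mem_biUnion, mem_biUnion]
    rcases le_or_gt (b 0) (a 0) with hab | hab
    · left
      refine ⟨a 0 - b 0, mem_range.2 (by omega), ?_⟩
      rw [mem_image]
      refine ⟨fun i => (Fin.tail a i : ℤ) - Fin.tail b i, ?_, ?_⟩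
      · unfold Dif
        rw [mem_image]
        exact ⟨(Fin.tail a, Fin.tail b), sec_anti hG (Nat.sub_le _ _) (Nat.zero_le _) key, rfl⟩
      · funext i
        refine Fin.cases ?_ (fun j => ?_) i
        · simp only [Fin.cons_zero]
          push_cast [hab]
          ring
        · simp only [Fin.cons_succ, Fin.tail]
    · right
      refine ⟨b 0 - a 0 - 1, mem_range.2 (by omega), ?_⟩
      rw [mem_image]
      refine ⟨fun i => (Fin.tail a i : ℤ) - Fin.tail b i, ?_, ?_⟩
      · unfold Dif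
        rw [mem_image]
        exact ⟨(Fin.tail a, Fin.tail b), sec_anti hG (Nat.zero_le _) (by omega) key, rfl⟩
      · funext i
        refine Fin.cases ?_ (fun j => ?_) i
        · simp only [Fin.cons_zero]
          omega
        · simp only [Fin.cons_succ, Fin.tail]
  calc (Dif G).card ≤ _ := card_le_card hsub
    _ ≤ _ := card_union_le _ _
    _ ≤ _ := by
      apply add_le_add
      · refine card_biUnion_le.trans (sum_le_sum fun s _ => card_image_le)
      · refine card_biUnion_le.trans (sum_le_sum fun s _ => card_image_le)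

theorem Sm_mono {r e : ℕ} {H H' : Finset ((Fin e → ℕ) × (Fin e → ℕ))} (h : H ⊆ H') :
    Sm r H ⊆ Sm r H' := image_subset_image h

theorem le_Sm_card {r : ℕ} (L : ℕ) :
    ∑ u ∈ range (L + 1), max (Sm r (sec G u 0)).card
      (if r ∣ u then (Sm r (sec G 0 (u / r))).card else 0) ≤ (Sm r G).card := by
  have h1 : ∀ u, max (Sm r (sec G u 0)).card
      (if r ∣ u then (Sm r (sec G 0 (u / r))).card else 0) ≤
      ((Sm r G).filter fun v => v 0 = u).card := by
    intro u
    have inj : Function.Injective fun v : Fin d → ℕ => (Fin.cons u v : Fin (d + 1) → ℕ) :=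
      fun v w h => (Fin.cons_injective2 h).2
    apply max_le
    · rw [← card_image_of_injective _ inj]
      apply card_le_card
      intro v hv
      rw [mem_image] at hv
      obtain ⟨w, hw, rfl⟩ := hv
      unfold Sm at hw
      rw [mem_image] at hw
      obtain ⟨⟨a, b⟩, hab, rfl⟩ := hw
      rw [mem_sec] at hab
      rw [mem_filter]
      refine ⟨?_, by simp⟩
      unfold Sm
      rw [mem_image]
      refine ⟨_, hab, ?_⟩
      funext i
      refine Fin.cases ?_ (fun j => ?_) i <;> simp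
    · split_ifs with hu
      · rw [← card_image_of_injective _ inj]
        apply card_le_card
        intro v hv
        rw [mem_image] at hv
        obtain ⟨w, hw, rfl⟩ := hv
        unfold Sm at hw
        rw [mem_image] at hw
        obtain ⟨⟨a, b⟩, hab, rfl⟩ := hw
        rw [mem_sec] at hab
        rw [mem_filter]
        refine ⟨?_, by simp⟩
        unfold Sm
        rw [mem_image]
        refine ⟨_, hab, ?_⟩
        funext i
        refine Fin.cases ?_ (fun j => ?_) i
        · simp [Nat.mul_div_cancel' hu]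
        · simp
      · exact Nat.zero_le _
  calc _ ≤ ∑ u ∈ range (L + 1), ((Sm r G).filter fun v => v 0 = u).card :=
        sum_le_sum fun u _ => h1 u
    _ = ((range (L + 1)).biUnion fun u => (Sm r G).filter fun v => v 0 = u).card := by
        rw [card_biUnion]
        intro u _ w _ huw
        refine disjoint_left.2 ?_
        intro v hv hv'
        rw [mem_filter] at hv hv'
        exact huw (hv.2.symm.trans hv'.2)
    _ ≤ (Sm r G).card := by
        apply card_le_card
        intro v hv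
        rw [mem_biUnion] at hv
        obtain ⟨u, _, hv⟩ := hv
        exact (mem_filter.1 hv).1

/-- **The arithmetic Kakeya inequality for down-sets**, with one slope and the best exponent. -/
theorem main {r : ℕ} (hr : 1 ≤ r) : ∀ (d : ℕ) (G : Finset ((Fin d → ℕ) × (Fin d → ℕ))),
    IsLowerSet (G : Set ((Fin d → ℕ) × (Fin d → ℕ))) →
    ((Dif G).card : ℝ) ≤ ((Sm r G).card : ℝ) ^ theta r := by
  intro d
  have hθ := one_le_theta hr
  induction d with
  | zero =>
    intro G _
    rcases G.eq_empty_or_nonempty with h | h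
    · rw [h]
      simp only [Dif, Sm, image_empty, card_empty, Nat.cast_zero]
      positivity
    · have h1 : (Dif G).card ≤ 1 := card_le_one.2 fun x _ y _ => Subsingleton.elim x y
      have h2 : 1 ≤ (Sm r G).card := card_pos.2 (h.image _)
      calc ((Dif G).card : ℝ) ≤ 1 := by exact_mod_cast h1
        _ ≤ ((Sm r G).card : ℝ) ^ theta r :=
          Real.one_le_rpow (by exact_mod_cast h2) (by linarith)
  | succ d ih =>
    intro G hG
    set M := G.sup (fun p => p.1 0) + G.sup (fun p => p.2 0) with hM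
    have hL : ∀ p ∈ G, p.1 0 ≤ r * M := by
      intro p hp
      have h1 : p.1 0 ≤ G.sup (fun p => p.1 0) := le_sup (f := fun p => p.1 0) hp
      calc p.1 0 ≤ M := by omega
        _ ≤ r * M := Nat.le_mul_of_pos_left _ hr
    have hM' : ∀ p ∈ G, p.2 0 ≤ M := by
      intro p hp
      have h1 : p.2 0 ≤ G.sup (fun p => p.2 0) := le_sup (f := fun p => p.2 0) hp
      omega
    have h1 := Dif_card_le hG hL hM'
    have h2 := le_Sm_card (G := G) (r := r) (r * M)
    have h3 := one_dim hr (fun s => ((Sm r (sec G s 0)).card : ℝ))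
      (fun t => ((Sm r (sec G 0 t)).card : ℝ))
      (fun s s' hs => Nat.cast_le.2 (card_le_card (Sm_mono (sec_anti hG hs (le_refl 0)))))
      (fun s => by positivity) (fun t => by positivity) M
    calc ((Dif G).card : ℝ)
        ≤ ((∑ s ∈ range (r * M + 1), (Dif (sec G s 0)).card +
          ∑ t ∈ range M, (Dif (sec G 0 (t + 1))).card : ℕ) : ℝ) := by exact_mod_cast h1
      _ = ∑ s ∈ range (r * M + 1), ((Dif (sec G s 0)).card : ℝ) +
          ∑ t ∈ range M, ((Dif (sec G 0 (t + 1))).card : ℝ) := by push_cast; rfl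
      _ ≤ ∑ s ∈ range (r * M + 1), ((Sm r (sec G s 0)).card : ℝ) ^ theta r +
          ∑ t ∈ range M, ((Sm r (sec G 0 (t + 1))).card : ℝ) ^ theta r :=
          add_le_add (sum_le_sum fun s _ => ih _ (sec_lower hG _ _))
            (sum_le_sum fun t _ => ih _ (sec_lower hG _ _))
      _ ≤ _ := h3
      _ ≤ ((Sm r G).card : ℝ) ^ theta r := by
          apply Real.rpow_le_rpow _ _ (by linarith)
          · exact sum_nonneg fun u _ => le_max_of_le_left (by positivity)
          · refine le_trans (le_of_eq ?_) (Nat.cast_le.2 h2)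
            push_cast
            rfl

end Q123.AK
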