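import Mathlib

/-!
# The one-dimensional inequality
-/

set_option autoImplicit false
open Finset

namespace Q123.AK

/-- The exponent `log (r + 2) / log (r + 1)`. -/
noncomputable def theta (r : ℕ) : ℝ := Real.log (r + 2) / Real.log (r + 1)

theorem one_le_theta {r : ℕ} (hr : 1 ≤ r) : 1 ≤ theta r := by
  unfold theta
  have h1 : 0 < Real.log ((r : ℝ) + 1) := Real.log_pos (by
    have : (1 : ℝ) ≤ r := by exact_mod_cast hr
    linarith)
  rw [le_div_iff₀ h1, one_mul]
  exact Real.log_le_log (by positivity) (by linarith)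

theorem rpow_theta {r : ℕ} (hr : 1 ≤ r) : ((r : ℝ) + 1) ^ theta r = r + 2 := by
  unfold theta
  have h0 : (1 : ℝ) ≤ r := by exact_mod_cast hr
  have h1 : Real.log ((r : ℝ) + 1) ≠ 0 := (Real.log_pos (by linarith)).ne'
  rw [Real.rpow_def_of_pos (by positivity), mul_div_cancel₀ _ h1, Real.exp_log (by positivity)]

/-- Increments of a convex power increase. -/
theorem incr {θ : ℝ} (hθ : 1 ≤ θ) {a b c : ℝ} (ha : 0 ≤ a) (hab : a ≤ b) (hc : 0 ≤ c) :
    (a + c) ^ θ - a ^ θ ≤ (b + c) ^ θ - b ^ θ := by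
  rcases eq_or_lt_of_le hc with hc0 | hc0
  · rw [← hc0]
    simp
  have hconv : ConvexOn ℝ (Set.Ici (0 : ℝ)) fun x : ℝ => x ^ θ := convexOn_rpow hθ
  rcases eq_or_lt_of_le hab with h | h
  · rw [h]
  have hs : 0 < b + c - a := by linarith
  -- a + c and b are convex combinations of a and b + c
  have h1 : (a + c) ^ θ ≤ ((b - a) / (b + c - a)) * a ^ θ + (c / (b + c - a)) * (b + c) ^ θ := by
    have := hconv.2 (Set.mem_Ici.2 ha) (Set.mem_Ici.2 (by linarith : (0 : ℝ) ≤ b + c))
      (div_nonneg (by linarith : 0 ≤ b - a) hs.le) (div_nonneg hc hs.le) (by field_simp; ring)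
    simp only [smul_eq_mul] at this
    have he : (b - a) / (b + c - a) * a + c / (b + c - a) * (b + c) = a + c := by
      field_simp
      ring
    rwa [he] at this
  have h2 : b ^ θ ≤ (c / (b + c - a)) * a ^ θ + ((b - a) / (b + c - a)) * (b + c) ^ θ := by
    have := hconv.2 (Set.mem_Ici.2 ha) (Set.mem_Ici.2 (by linarith : (0 : ℝ) ≤ b + c))
      (div_nonneg hc hs.le) (div_nonneg (by linarith : 0 ≤ b - a) hs.le) (by field_simp; ring)
    simp only [smul_eq_mul] at this
    have he : c / (b + c - a) * a + (b - a) / (b + c - a) * (b + c) = b := by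
      field_simp
      ring
    rwa [he] at this
  have h3 : (b - a) / (b + c - a) + c / (b + c - a) = 1 := by
    field_simp
    ring
  have h4 : (b - a) / (b + c - a) * a ^ θ + c / (b + c - a) * (b + c) ^ θ +
      (c / (b + c - a) * a ^ θ + (b - a) / (b + c - a) * (b + c) ^ θ) =
      ((b - a) / (b + c - a) + c / (b + c - a)) * (a ^ θ + (b + c) ^ θ) := by ring
  rw [h3, one_mul] at h4
  linarith

theorem block_aux {θ : ℝ} (hθ : 1 ≤ θ) {w : ℝ} (hw : 0 ≤ w) (k : ℕ) (B : ℕ → ℝ)
    (hB : ∀ i < k, w ≤ B i) (m : ℝ) (hm : 0 ≤ m) :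
    (m * w + k * w) ^ θ - k * w ^ θ ≤ (m * w + ∑ i ∈ range k, B i) ^ θ - ∑ i ∈ range k, B i ^ θ := by
  induction k generalizing m with
  | zero => simp
  | succ k ih =>
    rw [sum_range_succ, sum_range_succ]
    have hS : 0 ≤ ∑ i ∈ range k, B i := sum_nonneg fun i hi =>
      hw.trans (hB i (by have := mem_range.1 hi; omega))
    have h1 := ih (fun i hi => hB i (by omega)) (m + 1) (by linarith)
    have h2 := incr hθ hw (hB k (by omega)) (c := m * w + ∑ i ∈ range k, B i)
      (add_nonneg (mul_nonneg hm hw) hS)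
    have e1 : w + (m * w + ∑ i ∈ range k, B i) = (m + 1) * w + ∑ i ∈ range k, B i := by ring
    have e2 : B k + (m * w + ∑ i ∈ range k, B i) = m * w + (∑ i ∈ range k, B i + B k) := by ring
    have e3 : (m + 1) * w + k * w = m * w + ((k + 1 : ℕ) : ℝ) * w := by push_cast; ring
    rw [e1, e2] at h2
    rw [e3] at h1
    push_cast at h1 ⊢
    linarith

/-- **The block inequality**, sharp when all the numbers are equal. -/
theorem block {r : ℕ} (hr : 1 ≤ r) {w S : ℝ} (hw : 0 ≤ w) (hS : w ≤ S) (B : ℕ → ℝ)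
    (hB : ∀ i < r, w ≤ B i) :
    S ^ theta r + ∑ i ∈ range r, B i ^ theta r + w ^ theta r ≤
      (S + ∑ i ∈ range r, B i) ^ theta r := by
  have hθ := one_le_theta hr
  have h1 := block_aux hθ hw r B hB 1 zero_le_one
  have hsum : 0 ≤ ∑ i ∈ range r, B i := sum_nonneg fun i hi => hw.trans (hB i (mem_range.1 hi))
  have h2 := incr hθ hw hS hsum
  have h3 : (1 * w + r * w) ^ theta r = (r + 2) * w ^ theta r := by
    rw [show 1 * w + (r : ℝ) * w = ((r : ℝ) + 1) * w by ring, Real.mul_rpow (by positivity) hw,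
      rpow_theta hr]
  rw [h3, one_mul] at h1
  linarith

/-- **The one-dimensional inequality.** -/
theorem one_dim {r : ℕ} (hr : 1 ≤ r) (X Y : ℕ → ℝ) (hX : Antitone X)
    (hX0 : ∀ s, 0 ≤ X s) (hY0 : ∀ t, 0 ≤ Y t) (M : ℕ) :
    ∑ s ∈ range (r * M + 1), X s ^ theta r + ∑ t ∈ range M, Y (t + 1) ^ theta r ≤
      (∑ u ∈ range (r * M + 1), max (X u) (if r ∣ u then Y (u / r) else 0)) ^ theta r := by
  have hθ := one_le_theta hr
  induction M with
  | zero =>
    simp only [mul_zero, zero_add, range_one, sum_singleton, range_zero, sum_empty, add_zero]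
    apply Real.rpow_le_rpow (hX0 0) (le_max_left _ _) (by linarith)
  | succ M ih =>
    set Z : ℕ → ℝ := fun u => max (X u) (if r ∣ u then Y (u / r) else 0) with hZ
    have hZ0 : ∀ u, 0 ≤ Z u := fun u => (hX0 u).trans (le_max_left _ _)
    have hXZ : ∀ u, X u ≤ Z u := fun u => le_max_left _ _
    have e1 : r * (M + 1) + 1 = (r * M + 1) + r := by ring
    have hZs : ∑ u ∈ range (r * M + 1 + r), Z u =
        ∑ u ∈ range (r * M + 1), Z u + ∑ i ∈ range r, Z (r * M + 1 + i) :=
      sum_range_add Z (r * M + 1) r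
    have hXs : ∑ s ∈ range (r * M + 1 + r), X s ^ theta r =
        ∑ s ∈ range (r * M + 1), X s ^ theta r + ∑ i ∈ range r, X (r * M + 1 + i) ^ theta r :=
      sum_range_add (fun s => X s ^ theta r) (r * M + 1) r
    rw [e1, hZs, hXs, sum_range_succ (fun t => Y (t + 1) ^ theta r) M]
    set w := min (X (r * (M + 1))) (Y (M + 1)) with hw
    have hw0 : 0 ≤ w := le_min (hX0 _) (hY0 _)
    have hS : w ≤ ∑ u ∈ range (r * M + 1), Z u := by
      calc w ≤ X (r * (M + 1)) := min_le_left _ _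
        _ ≤ X 0 := hX (Nat.zero_le _)
        _ ≤ Z 0 := hXZ 0
        _ ≤ ∑ u ∈ range (r * M + 1), Z u :=
          single_le_sum (f := Z) (fun u _ => hZ0 u) (mem_range.2 (by omega))
    have hB : ∀ i < r, w ≤ Z (r * M + 1 + i) := by
      intro i hi
      calc w ≤ X (r * (M + 1)) := min_le_left _ _
        _ ≤ X (r * M + 1 + i) := hX (by rw [mul_add]; omega)
        _ ≤ _ := hXZ _
    have h1 := block hr hw0 hS (fun i => Z (r * M + 1 + i)) hB
    have h2 : ∑ s ∈ range r, X (r * M + 1 + s) ^ theta r + Y (M + 1) ^ theta r ≤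
        ∑ i ∈ range r, Z (r * M + 1 + i) ^ theta r + w ^ theta r := by
      obtain ⟨k, rfl⟩ : ∃ k, r = k + 1 := ⟨r - 1, by omega⟩
      rw [sum_range_succ, sum_range_succ]
      have e2 : (k + 1) * M + 1 + k = (k + 1) * (M + 1) := by ring
      rw [e2]
      have h3 : ∑ s ∈ range k, X ((k + 1) * M + 1 + s) ^ theta (k + 1) ≤
          ∑ i ∈ range k, Z ((k + 1) * M + 1 + i) ^ theta (k + 1) :=
        sum_le_sum fun i _ => Real.rpow_le_rpow (hX0 _) (hXZ _) (by linarith)
      have h4 : X ((k + 1) * (M + 1)) ^ theta (k + 1) + Y (M + 1) ^ theta (k + 1) =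
          Z ((k + 1) * (M + 1)) ^ theta (k + 1) + w ^ theta (k + 1) := by
        have hZe : Z ((k + 1) * (M + 1)) = max (X ((k + 1) * (M + 1))) (Y (M + 1)) := by
          simp only [hZ]
          rw [if_pos (Dvd.intro _ rfl), Nat.mul_div_cancel_left _ (Nat.succ_pos k)]
        rw [hZe, hw]
        rcases le_total (X ((k + 1) * (M + 1))) (Y (M + 1)) with h | h
        · rw [max_eq_right h, min_eq_left h, add_comm]
        · rw [max_eq_left h, min_eq_right h]
      linarith
    have h5 : (∑ s ∈ range (r * M + 1), Z s) ^ theta r =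
        (∑ u ∈ range (r * M + 1), max (X u) (if r ∣ u then Y (u / r) else 0)) ^ theta r := rfl
    linarith

end Q123.AK
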