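import Pool.Agent.Q123.AK.Down

/-!
# Sharpness, images in abelian groups, and the form of the conjecture
-/

set_option autoImplicit false
open Finset

namespace Q123.AK

/-- The product of `d` copies of the down-set with the points `(0, 0), …, (r, 0), (0, 1)`. -/
def ex (r d : ℕ) : Finset ((Fin d → ℕ) × (Fin d → ℕ)) :=
  ((Fintype.piFinset fun _ => range (r + 1)) ×ˢ (Fintype.piFinset fun _ => range 2)).filter
    fun p => ∀ i, p.1 i = 0 ∨ p.2 i = 0

theorem ex_lower (r d : ℕ) : IsLowerSet (ex r d : Set ((Fin d → ℕ) × (Fin d → ℕ))) := by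
  rintro ⟨a, b⟩ ⟨a', b'⟩ hle h
  simp only [ex, coe_filter, mem_product, Fintype.mem_piFinset, mem_range, Set.mem_ofPred_eq] at h ⊢
  rw [Prod.mk_le_mk] at hle
  obtain ⟨⟨h1, h2⟩, h3⟩ := h
  refine ⟨⟨fun i => lt_of_le_of_lt (hle.1 i) (h1 i), fun i => lt_of_le_of_lt (hle.2 i) (h2 i)⟩,
    fun i => ?_⟩
  have e1 : a' i ≤ a i := hle.1 i
  have e2 : b' i ≤ b i := hle.2 i
  show a' i = 0 ∨ b' i = 0
  rcases (h3 i : a i = 0 ∨ b i = 0) with h | h
  · left
    omega
  · right
    omega

theorem ex_Dif (r d : ℕ) : (Dif (ex r d)).card = (r + 2) ^ d := by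
  have : Dif (ex r d) = Fintype.piFinset fun _ => Icc (-1 : ℤ) r := by
    ext v
    simp only [Dif, ex, mem_image, mem_filter, mem_product, Fintype.mem_piFinset, mem_range,
      mem_Icc]
    constructor
    · rintro ⟨⟨a, b⟩, ⟨⟨h1, h2⟩, h3⟩, rfl⟩ i
      have e1 := h1 i
      have e2 := h2 i
      have e3 := h3 i
      simp only at e1 e2 e3 ⊢
      omega
    · intro h
      refine ⟨(fun i => (v i).toNat, fun i => (-v i).toNat), ⟨⟨fun i => ?_, fun i => ?_⟩,
        fun i => ?_⟩, ?_⟩
      · have := h i
        simp only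
        omega
      · have := h i
        simp only
        omega
      · have := h i
        simp only
        omega
      · funext i
        simp only
        omega
  rw [this, Fintype.card_piFinset]
  simp only [Int.card_Icc, prod_const, card_univ, Fintype.card_fin]
  congr 1

theorem ex_Sm (r d : ℕ) : (Sm r (ex r d)).card = (r + 1) ^ d := by
  have : Sm r (ex r d) = Fintype.piFinset fun _ => range (r + 1) := by
    ext v
    simp only [Sm, ex, mem_image, mem_filter, mem_product, Fintype.mem_piFinset, mem_range]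
    constructor
    · rintro ⟨⟨a, b⟩, ⟨⟨h1, h2⟩, h3⟩, rfl⟩ i
      have e1 := h1 i
      have e2 := h2 i
      simp only at e1 e2 ⊢
      rcases h3 i with h | h
      · simp only at h
        rw [h, zero_add]
        have : r * b i ≤ r * 1 := Nat.mul_le_mul_left _ (by omega)
        omega
      · simp only at h
        rw [h, mul_zero, add_zero]
        exact e1
    · intro h
      refine ⟨(v, 0), ⟨⟨h, fun i => by simp⟩, fun i => by simp⟩, ?_⟩
      funext i
      simp
  rw [this, Fintype.card_piFinset]
  simp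

theorem theta_le (r : ℕ) (hr : 1 ≤ r) : theta r ≤ 1 + 2 / (r + 1) := by
  unfold theta
  have h0 : (1 : ℝ) ≤ r := by exact_mod_cast hr
  have h2 : 1 / 2 < Real.log ((r : ℝ) + 1) := by
    have h3 : Real.log 2 ≤ Real.log ((r : ℝ) + 1) :=
      Real.log_le_log (by norm_num) (by linarith)
    have := Real.log_two_gt_d9
    linarith
  have h1 : 0 < Real.log ((r : ℝ) + 1) := by linarith
  rw [div_le_iff₀ h1]
  have h4 : Real.log ((r : ℝ) + 2) ≤ Real.log (r + 1) + 1 / (r + 1) := by
    have h5 : (r : ℝ) + 2 = (r + 1) * (1 + 1 / (r + 1)) := by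
      field_simp
      ring
    rw [h5, Real.log_mul (by positivity) (by positivity)]
    have := Real.log_le_sub_one_of_pos (show (0 : ℝ) < 1 + 1 / (r + 1) by positivity)
    linarith
  have h6 : 1 / ((r : ℝ) + 1) ≤ 2 / (r + 1) * Real.log (r + 1) := by
    rw [div_mul_eq_mul_div]
    apply div_le_div_of_nonneg_right _ (by positivity)
    linarith
  linarith

/-- The images in an abelian group. -/
theorem group_form {r : ℕ} (hr : 1 ≤ r) {d : ℕ} {G : Finset ((Fin d → ℕ) × (Fin d → ℕ))}
    (hG : IsLowerSet (G : Set ((Fin d → ℕ) × (Fin d → ℕ))))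
    {Γ : Type*} [AddCommGroup Γ] [DecidableEq Γ] (φ : (Fin d → ℕ) →+ Γ)
    (hφ : Set.InjOn φ (Sm r G : Set (Fin d → ℕ))) :
    ((G.image fun p => φ p.1 - φ p.2).card : ℝ) ≤
      ((G.image fun p => φ p.1 + r • φ p.2).card : ℝ) ^ theta r := by
  have h1 : (G.image fun p => φ p.1 - φ p.2).card ≤ (Dif G).card := by
    -- factor through the differences
    have : ∀ p ∈ G, ∀ q ∈ G, (fun i => (p.1 i : ℤ) - p.2 i) = (fun i => (q.1 i : ℤ) - q.2 i) →
        φ p.1 - φ p.2 = φ q.1 - φ q.2 := by
      intro p _ q _ h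
      rw [sub_eq_sub_iff_add_eq_add, ← map_add, ← map_add]
      congr 1
      funext i
      have := congrFun h i
      simp only [Pi.add_apply] at this ⊢
      omega
    classical
    have hex : ∀ v ∈ Dif G, ∃ p ∈ G, (fun i => (p.1 i : ℤ) - p.2 i) = v := by
      intro v hv
      unfold Dif at hv
      rw [mem_image] at hv
      exact hv
    choose! f hf using hex
    calc (G.image fun p => φ p.1 - φ p.2).card
        ≤ ((Dif G).image fun v => φ (f v).1 - φ (f v).2).card := by
          apply card_le_card
          intro x hx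
          rw [mem_image] at hx
          obtain ⟨p, hp, rfl⟩ := hx
          have hv : (fun i => (p.1 i : ℤ) - p.2 i) ∈ Dif G := mem_image_of_mem _ hp
          rw [mem_image]
          exact ⟨_, hv, this _ (hf _ hv).1 _ hp (hf _ hv).2⟩
      _ ≤ (Dif G).card := card_image_le
  have h2 : (G.image fun p => φ p.1 + r • φ p.2).card = (Sm r G).card := by
    have h3 : (G.image fun p => φ p.1 + r • φ p.2) = (Sm r G).image φ := by
      unfold Sm
      rw [image_image]
      apply image_congr
      intro p _
      simp only [Function.comp_apply]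
      rw [← map_nsmul, ← map_add]
      congr 1
    rw [h3, card_image_of_injOn hφ]
  rw [h2]
  exact le_trans (by exact_mod_cast h1) (main hr d G hG)

end Q123.AK
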